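import Pool.Agent.W326.DU.Stm

set_option autoImplicit false

namespace Pool.Agent.W335.DU.TNU

open Pool.Agent.W326.DU

theorem th : PropTNU := by
  classical
  intro G _ t ht x hx
  -- coefficients
  have h1 : ∀ g : G, 2 * x.coeff (t⁻¹ * g) - x.coeff g = if g = 1 then 1 else 0 := by
    intro g
    have h2 := congrArg (fun y : ZG G => y.coeff g) hx
    simp only [MonoidAlgebra.coeff_sub, two_smul, MonoidAlgebra.coeff_add, Finsupp.sub_apply,
      Finsupp.add_apply, MonoidAlgebra.of_apply, MonoidAlgebra.coeff_single_mul_apply, one_mul,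
      MonoidAlgebra.one_def, MonoidAlgebra.coeff_single, Finsupp.single_apply] at h2
    rw [two_mul, h2]
    simp only [eq_comm]
  have hinj : Function.Injective (fun j : ℤ => t ^ j) := by
    rw [injective_zpow_iff_not_isOfFinOrder, isOfFinOrder_iff_pow_eq_one]
    rintro ⟨n, hn, hn'⟩
    exact ht n hn hn'
  set a : ℤ → ℤ := fun j => x.coeff (t ^ j) with ha
  have h2 : ∀ j : ℤ, 2 * a (j - 1) - a j = if j = 0 then 1 else 0 := by
    intro j
    have h3 := h1 (t ^ j)
    have e1 : t⁻¹ * t ^ j = t ^ (j - 1) := by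
      rw [zpow_sub, zpow_one]
      exact (((Commute.refl t).inv_left).zpow_right j).eq
    rw [e1] at h3
    have e2 : (t ^ j = 1) ↔ j = 0 := by
      constructor
      · intro h; exact hinj (by simpa using h)
      · rintro rfl; simp
    simp only [e2] at h3
    exact h3
  have hfin : {j : ℤ | a j ≠ 0}.Finite := by
    have h4 : {j : ℤ | a j ≠ 0} = (fun j : ℤ => t ^ j) ⁻¹' (x.coeff.support : Set G) := by
      ext j
      simp [a]
    rw [h4]
    exact Set.Finite.preimage hinj.injOn (Finset.finite_toSet _)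
  obtain ⟨N, hN⟩ : ∃ N : ℕ, ∀ j : ℤ, a j ≠ 0 → |j| < N := by
    obtain ⟨M, hM⟩ := (hfin.image (fun j : ℤ => |j|)).bddAbove
    refine ⟨M.toNat + 1, fun j hj => ?_⟩
    have := hM ⟨j, hj, rfl⟩
    push_cast
    have := Int.self_le_toNat M
    simp only at *
    omega
  -- negative indices
  have hneg : ∀ (k : ℕ) (n : ℕ), a (-(n + 1 : ℤ)) = 2 ^ k * a (-(n + 1 : ℤ) - k) := by
    intro k
    induction k with
    | zero => intro n; simp
    | succ k ih =>
      intro n
      rw [ih n]
      have h5 := h2 (-(n + 1 : ℤ) - k)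
      rw [if_neg (by omega)] at h5
      have h6 : a (-(n + 1 : ℤ) - k) = 2 * a (-(n + 1 : ℤ) - (k + 1 : ℕ)) := by
        have e : -(n + 1 : ℤ) - ((k + 1 : ℕ) : ℤ) = -(n + 1 : ℤ) - k - 1 := by push_cast; ring
        rw [e]
        linarith
      rw [h6]
      ring
  have hm1 : a (-1) = 0 := by
    have h7 := hneg N 0
    have h8 : a (-((0 : ℕ) + 1 : ℤ) - N) = 0 := by
      by_contra hne
      have := hN _ hne
      rw [abs_lt] at this
      push_cast at this
      omega
    rw [h8, mul_zero] at h7
    simpa using h7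
  have h0 : a 0 = -1 := by
    have h9 := h2 0
    rw [if_pos rfl, show (0 : ℤ) - 1 = -1 by norm_num, hm1] at h9
    linarith
  have hpos : ∀ n : ℕ, a n = -2 ^ n := by
    intro n
    induction n with
    | zero => simpa using h0
    | succ n ih =>
      have h10 := h2 ((n + 1 : ℕ) : ℤ)
      rw [if_neg (by push_cast; omega), show (((n + 1 : ℕ) : ℤ)) - 1 = n by push_cast; ring, ih]
        at h10
      have : a ((n + 1 : ℕ) : ℤ) = 2 * -2 ^ n := by linarith
      rw [this]; ring
  have h11 : a (N : ℤ) ≠ 0 := by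
    rw [hpos]
    have : (0 : ℤ) < 2 ^ N := by positivity
    omega
  have := hN _ h11
  rw [abs_lt] at this
  omega

end Pool.Agent.W335.DU.TNU
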