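import Pool.Agent.W326.DU.Stm

set_option autoImplicit false

namespace Pool.Agent.W335.DU.HN

open Pool.Agent.W326.DU

/-- The linear extension of a crossed homomorphism. -/
theorem crossed (R : Type) [CommRing R] {G : Type} [Group G] (Q : Type) [AddCommGroup Q]
    [Module (MonoidAlgebra R G) Q] [Module R Q] [IsScalarTower R (MonoidAlgebra R G) Q]
    (δ : G → Q) (hδ : ∀ g h, δ (g * h) = MonoidAlgebra.of R G g • δ h + δ g) :
    ∃ D : MonoidAlgebra R G →+ Q, ∀ x h, D (x * (MonoidAlgebra.of R G h - 1)) = x • δ h := by
  classical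
  let D : MonoidAlgebra R G →+ Q :=
    { toFun := fun x => x.coeff.sum (fun g r => r • δ g)
      map_zero' := by simp
      map_add' := fun x y => by
        rw [MonoidAlgebra.coeff_add]
        exact Finsupp.sum_add_index' (by simp) (by intros; rw [add_smul]) }
  have hD : ∀ g r, D (MonoidAlgebra.single g r) = r • δ g := by
    intro g r
    change (MonoidAlgebra.single g r : MonoidAlgebra R G).coeff.sum (fun g r => r • δ g) = _
    rw [MonoidAlgebra.coeff_single]
    exact Finsupp.sum_single_index (by simp)
  refine ⟨D, fun x h => ?_⟩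
  have key : (D.comp (AddMonoidHom.mulRight (MonoidAlgebra.of R G h - 1))) =
      ((smulAddHom (MonoidAlgebra R G) Q).flip (δ h)) := by
    refine MonoidAlgebra.addMonoidHom_ext fun g r => ?_
    change D (MonoidAlgebra.single g r * (MonoidAlgebra.of R G h - 1)) =
      (MonoidAlgebra.single g r : MonoidAlgebra R G) • δ h
    rw [mul_sub, mul_one, MonoidAlgebra.of_apply, MonoidAlgebra.single_mul_single, mul_one,
      map_sub, hD, hD, hδ, smul_add, add_sub_cancel_right]
    rw [← smul_assoc, MonoidAlgebra.of_apply, MonoidAlgebra.smul_single, smul_eq_mul, mul_one]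
  exact DFunLike.congr_fun key x

theorem th : PropHN := by
  classical
  intro R _ H _ A B φ x hx
  let G : Type := HNNExtension H A B φ
  let I : Submodule (MonoidAlgebra R G) (MonoidAlgebra R G) :=
    IL R ((HNNExtension.of : H → HNNExtension H A B φ) '' (B : Set H))
  let Q : Type := MonoidAlgebra R G ⧸ I
  let mk : MonoidAlgebra R G →ₗ[MonoidAlgebra R G] Q := I.mkQ
  let u : Q := mk 1
  have hmk : ∀ b : B, MonoidAlgebra.of R G (HNNExtension.of (b : H)) • u = u := by
    intro b
    have h1 : MonoidAlgebra.of R G (HNNExtension.of (b : H)) - 1 ∈ I :=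
      Submodule.subset_span ⟨_, ⟨b, b.2, rfl⟩, rfl⟩
    have h2 : mk (MonoidAlgebra.of R G (HNNExtension.of (b : H)) - 1) = 0 :=
      (Submodule.Quotient.mk_eq_zero I).2 h1
    rw [map_sub, sub_eq_zero] at h2
    rw [← map_smul, smul_eq_mul, mul_one]
    exact h2
  -- the action of the group on `Q`
  let act : G →* Equiv.Perm Q :=
    { toFun := fun g =>
        { toFun := fun y => MonoidAlgebra.of R G g • y
          invFun := fun y => MonoidAlgebra.of R G g⁻¹ • y
          left_inv := fun y => by
            simp only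
            rw [← mul_smul, ← map_mul, inv_mul_cancel, map_one, one_smul]
          right_inv := fun y => by
            simp only
            rw [← mul_smul, ← map_mul, mul_inv_cancel, map_one, one_smul] }
      map_one' := by
        ext y
        change MonoidAlgebra.of R G 1 • y = y
        rw [map_one, one_smul]
      map_mul' := fun g h => by
        ext y
        change MonoidAlgebra.of R G (g * h) • y =
          MonoidAlgebra.of R G g • MonoidAlgebra.of R G h • y
        rw [map_mul, mul_smul] }
  have hact : ∀ g y, act g y = MonoidAlgebra.of R G g • y := fun g y => rfl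
  let τ : Equiv.Perm Q := Equiv.addRight u * act HNNExtension.t
  have hτ : ∀ y, τ y = MonoidAlgebra.of R G HNNExtension.t • y + u := fun y => rfl
  let Ψ : G →* Equiv.Perm Q := HNNExtension.lift (act.comp HNNExtension.of) τ (by
    intro a
    ext y
    change MonoidAlgebra.of R G HNNExtension.t • (MonoidAlgebra.of R G (HNNExtension.of (a : H)) • y)
      + u = MonoidAlgebra.of R G (HNNExtension.of ((φ a : B) : H)) •
        (MonoidAlgebra.of R G HNNExtension.t • y + u)
    rw [smul_add, hmk (φ a), ← mul_smul, ← mul_smul, ← map_mul, ← map_mul, HNNExtension.t_mul_of])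
  have hΨ : ∀ g y, Ψ g y = MonoidAlgebra.of R G g • y + Ψ g 0 := by
    intro g
    refine HNNExtension.induction_on g ?_ ?_ ?_ ?_
    · intro h y
      have e : Ψ (HNNExtension.of h) = act (HNNExtension.of h) :=
        HNNExtension.lift_of _ _ _ h
      rw [e, hact, hact, smul_zero, add_zero]
    · intro y
      have e : Ψ HNNExtension.t = τ := HNNExtension.lift_t _ _ _
      rw [e, hτ, hτ, smul_zero, zero_add]
    · intro g h hg hh y
      rw [map_mul, Equiv.Perm.mul_apply, Equiv.Perm.mul_apply, hg (Ψ h y), hh y, hg (Ψ h 0),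
        smul_add, map_mul, mul_smul]
      abel
    · intro g hg y
      have inv : ∀ z, Ψ g⁻¹ z = MonoidAlgebra.of R G g⁻¹ • (z - Ψ g 0) := by
        intro z
        rw [map_inv, Equiv.Perm.inv_eq_iff_eq, hg, ← mul_smul, ← map_mul, mul_inv_cancel, map_one,
          one_smul]
        abel
      rw [inv, inv, zero_sub, smul_sub, smul_neg]
      abel
  obtain ⟨D, hD⟩ := crossed R Q (fun g => Ψ g 0) (fun g h => by
    rw [map_mul, Equiv.Perm.mul_apply, hΨ g (Ψ h 0)])
  have h0 : ∀ h : H, Ψ (HNNExtension.of h) 0 = 0 := by
    intro h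
    have e : Ψ (HNNExtension.of h) = act (HNNExtension.of h) :=
      HNNExtension.lift_of _ _ _ h
    rw [e, hact, smul_zero]
  have hIL : ∀ y ∈ IL R (Set.range (HNNExtension.of : H → HNNExtension H A B φ)),
      ∀ a : MonoidAlgebra R G, D (a * y) = 0 := by
    intro y hy
    refine Submodule.span_induction (p := fun y _ => ∀ a : MonoidAlgebra R G, D (a * y) = 0)
      ?_ (fun a => by rw [mul_zero, map_zero]) ?_ ?_ hy
    · rintro _ ⟨_, ⟨h, rfl⟩, rfl⟩ a
      exact (hD a (HNNExtension.of h)).trans (by rw [h0, smul_zero])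
    · intro y z _ _ hy hz a
      rw [mul_add, map_add, hy, hz, add_zero]
    · intro b y _ hy a
      rw [smul_eq_mul, ← mul_assoc]
      exact hy _
  have h1 := hIL _ hx 1
  rw [one_mul] at h1
  have h2 : Ψ HNNExtension.t 0 = u := by
    have e : Ψ HNNExtension.t = τ := HNNExtension.lift_t _ _ _
    rw [e, hτ, smul_zero, zero_add]
  have h3 : D (x * (MonoidAlgebra.of R G HNNExtension.t - 1)) = x • u := by
    rw [hD, h2]
  have h4 : x • u = 0 := h3.symm.trans h1
  have h5 : mk x = 0 := by
    have : x • u = mk x := by
      rw [← map_smul, smul_eq_mul, mul_one]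
    rw [← this]; exact h4
  exact (Submodule.Quotient.mk_eq_zero I).1 h5

end Pool.Agent.W335.DU.HN
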